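import Pool.Agent.H29.BoxDrawingProof

set_option autoImplicit false

namespace Pool.Agent.Results.MP_40073f_co.CubicVolume

open Pool.Agent.H29.BoxDrawing

/-- **The volume of one-bend orthogonal box-drawings of complete graphs is cubic.** -/
theorem result (n : ℕ) : n ^ 3 ≤ 2 ^ 18 * V₁ n ∧ V₁ n ≤ 2 * n ^ 3 :=
  Pool.Agent.H29.BoxDrawing.main n

end Pool.Agent.Results.MP_40073f_co.CubicVolume
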